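import Pool.Agent.MWLE.StmtsA

/-!
# MWLE row CPX: the `x`-copy in `w1` and `w4`
-/

set_option autoImplicit false

namespace Pool.Agent.MWLE.H2

open Pool.Agent.Helper14_MV Pool.Agent.Helper2_MV
open Pool.Agent.MWK (pre Gw)
open Pool.Agent.MWLE

/-- the projection -/
def fx (m : ℕ) (w : List ℕ) : List ℕ := (w.flatMap (psi 1)).filter (Fx m)

theorem fx_append (m : ℕ) (a b : List ℕ) : fx m (a ++ b) = fx m a ++ fx m b := by
  unfold fx
  rw [List.flatMap_append, List.filter_append]

theorem fx_cons (m c : ℕ) (b : List ℕ) : fx m (c :: b) = fx m [c] ++ fx m b := by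
  rw [← fx_append, List.singleton_append]

theorem fx_nil (m : ℕ) : fx m [] = [] := rfl

theorem fx_zero (m : ℕ) : fx m [0] = [0] := by
  simp [fx, psi, Fx]

theorem fx_one (m : ℕ) : fx m [1] = [] := by
  simp [fx, psi]

theorem fx_con_lo (m k : ℕ) (h : k < m + 1) : fx m [con k] = [] := by
  have h1 : con k ≠ 1 := by unfold con; omega
  have h2 : con k % 5 = 4 := by unfold con; omega
  have h3 : Fx m (con k) = false := by
    unfold Fx
    simp only [decide_eq_false_iff_not]
    unfold con pin sep
    omega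
  simp [fx, psi, h1, h2, h3]

theorem fx_con_hi (m k : ℕ) (h : m + 1 ≤ k) : fx m [con k] = [con k, con k] := by
  have h1 : con k ≠ 1 := by unfold con; omega
  have h2 : con k % 5 = 4 := by unfold con; omega
  have h3 : Fx m (con k) = true := by
    unfold Fx
    simp only [decide_eq_true_eq]
    unfold con pin sep
    omega
  simp [fx, psi, h1, h2, h3]

theorem fx_pin_lo (m k : ℕ) (h : k < m + 2) : fx m [pin k] = [] := by
  have h1 : pin k ≠ 1 := by unfold pin; omega
  have h2 : pin k % 5 ≠ 4 := by unfold pin; omega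
  have h3 : Fx m (pin k) = false := by
    unfold Fx
    simp only [decide_eq_false_iff_not]
    unfold con pin sep
    omega
  simp [fx, psi, h1, h2, h3]

theorem fx_pin_hi (m k : ℕ) (h : m + 2 ≤ k) : fx m [pin k] = [pin k] := by
  have h1 : pin k ≠ 1 := by unfold pin; omega
  have h2 : pin k % 5 ≠ 4 := by unfold pin; omega
  have h3 : Fx m (pin k) = true := by
    unfold Fx
    simp only [decide_eq_true_eq]
    unfold con pin sep
    omega
  simp [fx, psi, h1, h2, h3]

theorem fx_sep_lo (m k : ℕ) (h : k < m + 2) : fx m [sep k] = [] := by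
  have h1 : sep k ≠ 1 := by unfold sep; omega
  have h2 : sep k % 5 ≠ 4 := by unfold sep; omega
  have h3 : Fx m (sep k) = false := by
    unfold Fx
    simp only [decide_eq_false_iff_not]
    unfold con pin sep
    omega
  simp [fx, psi, h1, h2, h3]

theorem fx_sep_hi (m k : ℕ) (h : m + 2 ≤ k) : fx m [sep k] = [sep k] := by
  have h1 : sep k ≠ 1 := by unfold sep; omega
  have h2 : sep k % 5 ≠ 4 := by unfold sep; omega
  have h3 : Fx m (sep k) = true := by
    unfold Fx
    simp only [decide_eq_true_eq]
    unfold con pin sep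
    omega
  simp [fx, psi, h1, h2, h3]

theorem fx_flatMap {α : Type} (m : ℕ) (f : α → List ℕ) : ∀ l : List α,
    fx m (l.flatMap f) = l.flatMap (fun a => fx m (f a))
  | [] => rfl
  | a :: l => by
    rw [List.flatMap_cons, List.flatMap_cons, fx_append, fx_flatMap m f l]

theorem flatMap_congr' {α : Type} {f g : α → List ℕ} : ∀ {l : List α},
    (∀ a ∈ l, f a = g a) → l.flatMap f = l.flatMap g
  | [], _ => rfl
  | a :: l, h => by
    rw [List.flatMap_cons, List.flatMap_cons, h a (by simp),
      flatMap_congr' (fun b hb => h b (List.mem_cons_of_mem _ hb))]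

theorem fx_cp_lo (m : ℕ) : fx m (cp 1 m) = [] := by
  unfold cp
  rw [fx_flatMap, flatMap_congr' (g := fun _ => []) (fun i hi => ?_)]
  · simp
  · have hi' := List.mem_range.1 hi
    rw [fx_cons m (pin (1 + i)), fx_pin_lo m (1 + i) (by omega), fx_cons m (con (1 + i)),
      fx_con_lo m (1 + i) (by omega)]
    rfl

theorem fx_cp_hi (m : ℕ) : fx m (cp (m + 2) m) = (List.range m).flatMap (fun i =>
    [pin (i + (m + 2)), con (i + 1 + (m + 1)), con (i + 1 + (m + 1)), con (i + 1 + (m + 1)),
      con (i + 1 + (m + 1))]) := by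
  unfold cp
  rw [fx_flatMap]
  refine flatMap_congr' (fun i hi => ?_)
  have e1 : m + 2 + i = i + (m + 2) := by omega
  have e2 : con (m + 2 + i) = con (i + 1 + (m + 1)) := by unfold con; omega
  rw [fx_cons m (pin (m + 2 + i)), fx_pin_hi m (m + 2 + i) (by omega),
    fx_cons m (con (m + 2 + i)), fx_con_hi m (m + 2 + i) (by omega), e2, e1]
  rfl

theorem regroup (L C : ℕ → ℕ) : ∀ k : ℕ, [C 0, C 0, C 0, C 0] ++
    ((List.range k).flatMap (fun i => [L i, C (i + 1), C (i + 1), C (i + 1), C (i + 1)]) ++
      [L k]) = lw4 L C (k + 1)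
  | 0 => by simp [lw4]
  | k + 1 => by
    have ih := regroup L C k
    have e : lw4 L C (k + 1 + 1) = lw4 L C (k + 1) ++
        [C (k + 1), C (k + 1), C (k + 1), C (k + 1), L (k + 1)] := by
      unfold lw4
      rw [List.range_succ (n := k + 1), List.flatMap_append]
      simp
    rw [e, ← ih, List.range_succ, List.flatMap_append]
    simp

theorem fx_tl (m : ℕ) : ∀ σ : List ℕ, fx m (tl σ) =
    tl (σ.filter (fun k => decide (m + 2 ≤ k)))
  | [] => rfl
  | k :: σ => by
    have ih := fx_tl m σ
    unfold tl at ih ⊢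
    rw [List.flatMap_cons, fx_append, ih]
    by_cases h : m + 2 ≤ k
    · rw [List.filter_cons_of_pos (by simpa using h), List.flatMap_cons, fx_cons,
        fx_sep_hi m k h, fx_pin_hi m k h]
      rfl
    · rw [List.filter_cons_of_neg (by simpa using h), fx_cons, fx_sep_lo m k (by omega),
        fx_pin_lo m k (by omega)]
      rfl

theorem cpx : CpxStmt := by
  intro σ τ m hσ d
  show fx m (wd σ m d false) = _
  have hN0 : fx m (N0 m) = [] := by
    unfold N0
    rw [fx_cons m 1, fx_one, fx_cons m (con 0), fx_con_lo m 0 (by omega), fx_cons m (con 0),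
      fx_con_lo m 0 (by omega), fx_cons m (pin 0), fx_pin_lo m 0 (by omega), fx_cp_lo]
    rfl
  have hd : fx m (if d then [0, 0] else [0]) = (if d then [0, 0] else [0]) := by
    cases d
    · exact fx_zero m
    · show fx m [0, 0] = [0, 0]
      rw [fx_cons, fx_zero]
      rfl
  have hNx : fx m (Nx m false) =
      lw4 (fun i => pin (i + (m + 2))) (fun i => con (i + (m + 1))) (m + 1) := by
    rw [← regroup]
    unfold Nx
    have e0 : con (m + 1) = con (0 + (m + 1)) := by rw [Nat.zero_add]
    have e1 : pin (2 * m + 2) = pin (m + (m + 2)) := by unfold pin; omega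
    simp only [Bool.false_eq_true, if_false, List.nil_append]
    rw [fx_cons m (con (m + 1)), fx_con_hi m (m + 1) le_rfl, fx_cons m (con (m + 1)),
      fx_con_hi m (m + 1) le_rfl, fx_cons m (pin (m + 1)), fx_pin_lo m (m + 1) (by omega),
      fx_cons m 1, fx_one, fx_append, fx_cp_hi, fx_pin_hi m (2 * m + 2) (by omega), e0, e1]
    simp
  have htl : fx m (tl σ) = tll (fun i => sep (i + (m + 2))) (fun i => pin (i + (m + 2))) τ := by
    rw [fx_tl, hσ.f3]
    unfold tl tll
    rw [List.flatMap_map]
  unfold wd wb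
  rw [fx_append, fx_append, fx_append, fx_append, hN0, hd, hNx, htl, fx_zero]
  simp

end Pool.Agent.MWLE.H2
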